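import Pool.Agent.Helper88.CG.Goals
import Pool.Agent.Helper85.RR.S1
import Pool.Agent.Helper31.RR.CB
import Pool.Agent.Helper74.PP.TL
import Pool.Agent.Helper49.GM.TS

/-!
# MP_69be96_nt, project CG, packet LB: lower bound for the primes under the weight
-/

set_option autoImplicit false

open Finset Filter Topology

open scoped Classical

namespace Pool.Agent.Helper42.CG

open Pool.Agent.Helper88.PP (pr Rg om Sf SS uu vv ee LA VV QQ cost)
open Pool.Agent.Helper88.RR (gg ab TB WB nz DB VM)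
open Pool.Agent.Helper88.GM (NI XI gB Sr In)
open Pool.Agent.Helper88.CG
open Pool.Agent.Helper85.RR (ab_nonneg mem_TB card_TB prod_TB WB_eq DB_eq one_le_DB)
open Pool.Agent.Helper3.PP (om_nonneg mem_SS mem_LA LA_sub)

theorem pw_nonneg (x n : ℕ) : 0 ≤ pw x n := by
  unfold pw
  split_ifs
  · refine mul_nonneg (le_max_left _ _) (div_nonneg ?_ ?_) <;> exact Real.log_natCast_nonneg _
  · exact le_rfl

theorem pw_le_one (x n : ℕ) (hx : 2 ≤ x) : pw x n ≤ 1 := by
  unfold pw
  split_ifs with hp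
  · have hlx : 0 < Real.log x := Real.log_pos (by exact_mod_cast hx)
    rcases le_or_gt n x with h | h
    · have h1 : tw x n ≤ 1 := by
        unfold tw
        refine max_le zero_le_one ?_
        have : 0 ≤ |Real.log (4 * n / x)| / Real.log 4 :=
          div_nonneg (abs_nonneg _) (Real.log_nonneg (by norm_num))
        linarith
      have h0 : 0 ≤ tw x n := le_max_left _ _
      have h2 : Real.log n / Real.log x ≤ 1 := by
        rw [div_le_one hlx]
        exact Real.log_le_log (by exact_mod_cast hp.pos) (by exact_mod_cast h)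
      have h3 : 0 ≤ Real.log n / Real.log x := div_nonneg (Real.log_natCast_nonneg _) hlx.le
      calc tw x n * (Real.log n / Real.log x) ≤ 1 * 1 := mul_le_mul h1 h2 h3 zero_le_one
        _ = 1 := one_mul 1
    · have h1 : tw x n = 0 := by
        unfold tw
        refine max_eq_left ?_
        have hx0 : (0 : ℝ) < x := by exact_mod_cast (by omega : 0 < x)
        have h4 : (4 : ℝ) ≤ 4 * n / x := by
          rw [le_div_iff₀ hx0]
          have : (x : ℝ) ≤ n := by exact_mod_cast h.le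
          linarith
        have h5 : Real.log 4 ≤ |Real.log (4 * n / x)| :=
          (Real.log_le_log (by norm_num) h4).trans (le_abs_self _)
        have h6 : 0 < Real.log 4 := Real.log_pos (by norm_num)
        have h7 : 1 ≤ |Real.log (4 * n / x)| / Real.log 4 := by
          rw [le_div_iff₀ h6]
          linarith
        linarith
      rw [h1, zero_mul]
      exact zero_le_one
  · exact zero_le_one

theorem XI_nonneg (u v Q : ℕ) : 0 ≤ XI u v Q := by
  unfold XI
  positivity

/-- the mean square with the roughness at the points of `S` -/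
noncomputable def DS' (m q M z : ℕ) (P S : Finset ℕ) : ℝ :=
  ∑ r ∈ TB m q M z P, (if ∀ i, r i ≠ 0 → (i : ℕ) ∈ S then
      ∏ i : P, (if r i = 0 then 1 else ab m q z (r i) ^ 2 * (Nat.totient (r i) : ℝ))
      else 0)

theorem DS'_nonneg (m q M z : ℕ) (P S : Finset ℕ) : 0 ≤ DS' m q M z P S := by
  unfold DS'
  refine Finset.sum_nonneg fun r _ => ?_
  split_ifs
  · refine Finset.prod_nonneg fun i _ => ?_
    split_ifs
    · exact zero_le_one
    · positivity
  · exact le_rfl

/-- the rough points -/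
noncomputable def Sn (y z : ℕ) (P : Finset ℕ) (n : ℕ) : Finset ℕ :=
  P.filter (fun h => Rg y z (n + h))

theorem prod_ic (y z n : ℕ) (P : Finset ℕ) (r : P → ℕ) :
    ∏ i : P, ic y z (sg (r i)) (n + (i : ℕ)) =
      if ∀ i, r i ≠ 0 → (i : ℕ) ∈ Sn y z P n then 1 else 0 := by
  have h0 : ∀ i : P, ic y z (sg (r i)) (n + (i : ℕ)) =
      if r i ≠ 0 → (i : ℕ) ∈ Sn y z P n then 1 else 0 := by
    intro i
    unfold ic sg Sn
    by_cases hi : r i = 0
    · simp [hi]
    · simp [hi]
  by_cases h : ∀ i, r i ≠ 0 → (i : ℕ) ∈ Sn y z P n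
  · rw [if_pos h]
    refine Finset.prod_eq_one fun i _ => ?_
    rw [h0 i, if_pos (h i)]
  · rw [if_neg h]
    push Not at h
    obtain ⟨i, hi, hi'⟩ := h
    refine Finset.prod_eq_zero (Finset.mem_univ i) ?_
    rw [h0 i, if_neg]
    intro h1
    exact hi' (h1 hi)

/-- the main term -/
theorem main_term (m q M z x y j : ℕ) (P N : Finset ℕ) :
    ∑ r ∈ TB m q M z P, (∏ i : P, (if r i = 0 then 1 else - ab m q z (r i))) ^ 2 *
      (CN x y z j N (fun i => sg (r i)) *
        ∏ i : P, (if r i = 0 then 1 else (Nat.totient (r i) : ℝ))) =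
    ∑ n ∈ N, pw x (n + j) * DS' m q M z P (Sn y z P n) := by
  unfold DS' CN
  simp only [Finset.mul_sum, Finset.sum_mul]
  rw [Finset.sum_comm]
  refine Finset.sum_congr rfl fun n _ => Finset.sum_congr rfl fun r _ => ?_
  rw [prod_ic]
  have h1 : (∏ i : P, (if r i = 0 then (1 : ℝ) else - ab m q z (r i))) ^ 2 *
      ∏ i : P, (if r i = 0 then 1 else (Nat.totient (r i) : ℝ)) =
      ∏ i : P, (if r i = 0 then 1 else ab m q z (r i) ^ 2 * (Nat.totient (r i) : ℝ)) := by
    rw [← Finset.prod_pow, ← Finset.prod_mul_distrib]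
    refine Finset.prod_congr rfl fun i _ => ?_
    split_ifs <;> ring
  split_ifs with h
  · rw [← h1]; ring
  · ring

/-- the second moment for our parameters -/
theorem moment (h1 : StmtWT) {C : ℝ} (hC : 1 ≤ C) (E z x y b j m q K : ℕ) (P : Finset ℕ)
    (hz : 2 ≤ z) (hm : 1 ≤ m) (hqm : q * m ≤ E / 16) (hK : 2 * (E / 16 / m) ≤ K)
    (hCB : ∀ d ∈ SS z (z ^ (E / 16)),
      (d : ℝ) * ∑ r ∈ (LA z m (q * m)).filter (fun r => d ∣ r), ab m q z r ≤ C) :
    |∑ n ∈ NI (x / 32) x (QQ x) b, pw x (n + j) * WB m q (E / 16) z y P n ^ 2 -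
      ∑ n ∈ NI (x / 32) x (QQ x) b, pw x (n + j) * DS' m q (E / 16) z P (Sn y z P n)| ≤
    ∑ d ∈ (DS z (z ^ (2 * (E / 16))) K : Finset (P → ℕ)),
      (∏ i, (if d i = 0 then 1 else 3 * C ^ 2 * 3 ^ (d i).primeFactors.card)) *
      |CN x y z j (NI (x / 32) x (QQ x) b) d
        - CN x y z j (NI (x / 32) x (QQ x) b) (fun i => sg (d i)) *
          ∏ i, (if d i = 0 then 1 else 1 / (d i : ℝ))| := by
  have hz0 : 1 ≤ z := by omega
  have hSS0 : ∀ r, r ∈ SS z (z ^ (E / 16)) → r ≠ 0 := by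
    intro r hr
    have := (mem_SS.mp hr).1.1
    omega
  have hLA0 : ∀ r, r ∈ LA z m (q * m) → r ≠ 0 := fun r hr =>
    hSS0 r (LA_sub hz0 hqm hr)
  have hLA1 : ∀ r, r ∈ LA z m (q * m) → r ≠ 1 := by
    intro r hr h
    have h6 := (mem_LA.mp hr).2
    have h7 : z ^ 1 ≤ z ^ m := Nat.pow_le_pow_right hz0 hm
    rw [pow_one] at h7
    omega
  have key := h1 P (fun i => (i : ℕ)) y z (z ^ (E / 16)) (z ^ (2 * (E / 16))) K
    (NI (x / 32) x (QQ x) b) (fun n => pw x (n + j)) C
    (fun d => CN x y z j (NI (x / 32) x (QQ x) b) d) (TB m q (E / 16) z P)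
    (fun r => ∏ i : P, (if r i = 0 then 1 else - ab m q z (r i)))
    (fun _ r => if r = 0 then 1 else if r ∈ LA z m (q * m) then ab m q z r else 0)
    hC ?_ ?_ ?_ ?_ ?_ ?_ ?_ ?_
  · simp only [← WB_eq] at key
    rw [main_term] at key
    exact key
  · intro r hr i
    rcases (mem_TB hr).1 i with h | h
    · exact Or.inl h
    · exact Or.inr (LA_sub hz0 hqm h)
  · intro r hr s _ i hi
    rcases (mem_TB hr).1 i with h | h
    · omega
    · exact absurd hi (hLA1 _ h)
  · intro r hr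
    calc (∏ i, max 1 (r i)) ^ 2 ≤ (z ^ (E / 16)) ^ 2 := Nat.pow_le_pow_left (prod_TB hz hr) 2
      _ = z ^ (2 * (E / 16)) := by rw [← pow_mul, mul_comm]
  · intro r hr s hs
    rw [Finset.filter_or]
    refine (Finset.card_union_le _ _).trans ?_
    have h5 := card_TB hm hz hr
    have h6 := card_TB hm hz hs
    unfold nz at h5 h6
    omega
  · intro i r
    have h5 := ab_nonneg m q z r
    split_ifs <;> positivity
  · intro i
    simp
  · intro r hr
    rw [Finset.abs_prod]
    refine Finset.prod_le_prod (fun i _ => abs_nonneg _) fun i _ => ?_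
    rcases (mem_TB hr).1 i with h | h
    · simp [h]
    · rw [if_neg (hLA0 _ h), if_neg (hLA0 _ h), if_pos h, abs_neg,
        abs_of_nonneg (ab_nonneg _ _ _ _)]
  · intro i d hd
    refine le_of_eq_of_le ?_ (hCB d hd)
    congr 1
    have h5 : ∀ r ∈ (SS z (z ^ (E / 16))).filter (fun r => d ∣ r),
        (if r = 0 then (1 : ℝ) else if r ∈ LA z m (q * m) then ab m q z r else 0) =
        if r ∈ LA z m (q * m) then ab m q z r else 0 := by
      intro r hr
      rw [if_neg (hSS0 r (Finset.mem_filter.mp hr).1)]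
    rw [Finset.sum_congr rfl h5, ← Finset.sum_filter]
    refine Finset.sum_congr ?_ fun _ _ => rfl
    ext r
    simp only [Finset.mem_filter]
    constructor
    · rintro ⟨⟨_, h7⟩, h8⟩
      exact ⟨h8, h7⟩
    · rintro ⟨h7, h8⟩
      exact ⟨⟨LA_sub hz0 hqm h7, h8⟩, h7⟩

/-- the exponential beats the density -/
theorem exp_small (c c6 η : ℝ) (hc : 0 < c) (hc6 : 0 < c6) (hη : 0 < η) : ∃ E0 : ℕ, ∀ E : ℕ,
    E0 ≤ E → ∀ t : ℝ, t ^ 3 ≤ E → c6 * E * Real.exp t * Real.exp (-(c * E)) ≤ η := by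
  obtain ⟨E0, hE0⟩ := exists_nat_ge (max 1 (max ((4 / c) ^ 2 + 4 / c + 1) (8 * c6 / (η * c ^ 2))))
  refine ⟨E0, fun E hE t ht => ?_⟩
  have hE' : (E0 : ℝ) ≤ E := by exact_mod_cast hE
  have hE1 : (1 : ℝ) ≤ E := (le_max_left _ _).trans (hE0.trans hE')
  have hE2 : (4 / c) ^ 2 + 4 / c + 1 ≤ E :=
    ((le_max_left _ _).trans (le_max_right _ _)).trans (hE0.trans hE')
  have hE3 : 8 * c6 / (η * c ^ 2) ≤ E :=
    ((le_max_right _ _).trans (le_max_right _ _)).trans (hE0.trans hE')
  have h4c : 0 < 4 / c := by positivity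
  have ht1 : t ≤ c / 2 * E := by
    by_contra hcon
    push Not at hcon
    have h1 : 0 < c / 2 * (E : ℝ) := by positivity
    have h2 : (c / 2 * (E : ℝ)) ^ 3 < t ^ 3 := pow_lt_pow_left₀ hcon h1.le (by norm_num)
    have h3 : (c / 2 * (E : ℝ)) ^ 3 < E := h2.trans_le ht
    -- `E ≥ (4/c)^2 + 4/c + 1`
    have h5 : 2 ≤ c / 2 * (E : ℝ) := by
      have : c / 2 * (4 / c) ≤ c / 2 * E := mul_le_mul_of_nonneg_left (by nlinarith only [hE2]) (by positivity)
      have h6 : c / 2 * (4 / c) = 2 := by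
        rw [div_mul_div_comm, div_eq_iff (by positivity)]
        ring
      linarith only [this, h6]
    have h7 : (4 / c) ^ 2 ≤ E := by linarith only [hE2, h4c]
    have h8 : 4 * (E : ℝ) ≤ (c / 2 * E) ^ 2 := by
      have h9 : c ^ 2 / 4 * (4 / c) ^ 2 = 4 := by
        rw [div_pow, div_mul_div_comm, div_eq_iff (by positivity)]
        ring
      have h10 : c ^ 2 / 4 * (4 / c) ^ 2 ≤ c ^ 2 / 4 * E :=
        mul_le_mul_of_nonneg_left h7 (by positivity)
      have h11 : 4 ≤ c ^ 2 / 4 * (E : ℝ) := by linarith only [h9, h10]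
      calc 4 * (E : ℝ) ≤ (c ^ 2 / 4 * E) * E := mul_le_mul_of_nonneg_right h11 (by linarith only [hE1])
        _ = (c / 2 * E) ^ 2 := by ring
    have h12 : (c / 2 * (E : ℝ)) ^ 3 = (c / 2 * E) ^ 2 * (c / 2 * E) := by ring
    rw [h12] at h3
    have h13 : 4 * (E : ℝ) * 2 ≤ (c / 2 * E) ^ 2 * (c / 2 * E) :=
      mul_le_mul h8 h5 (by norm_num) (by positivity)
    linarith only [ht, hE1, h2, h13]
  have h1 : Real.exp t * Real.exp (-(c * E)) ≤ Real.exp (-(c / 2 * E)) := by
    rw [← Real.exp_add]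
    refine Real.exp_le_exp.2 ?_
    linarith
  have h2 : c ^ 2 * (E : ℝ) ^ 2 / 8 ≤ Real.exp (c / 2 * E) := by
    have := Real.quadratic_le_exp_of_nonneg (by positivity : 0 ≤ c / 2 * (E : ℝ))
    have h3 : 0 < c / 2 * (E : ℝ) := by positivity
    nlinarith only [this, h3]
  have h3 : c6 * E ≤ η * Real.exp (c / 2 * E) := by
    refine le_trans ?_ (mul_le_mul_of_nonneg_left h2 hη.le)
    rw [div_le_iff₀ (by positivity)] at hE3
    nlinarith only [hE3]
  calc c6 * E * Real.exp t * Real.exp (-(c * E)) =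
        c6 * E * (Real.exp t * Real.exp (-(c * E))) := by ring
    _ ≤ c6 * E * Real.exp (-(c / 2 * E)) := mul_le_mul_of_nonneg_left h1 (by positivity)
    _ ≤ (η * Real.exp (c / 2 * E)) * Real.exp (-(c / 2 * E)) :=
        mul_le_mul_of_nonneg_right h3 (Real.exp_pos _).le
    _ = η := by rw [mul_assoc, ← Real.exp_add, add_neg_cancel, Real.exp_zero, mul_one]

/-- the number of bad integers -/
theorem bad_small (L : ℝ) (hL : 0 < L) : ∃ E0 : ℕ, ∀ E : ℕ, E0 ≤ E → ∀ k : ℕ,
    (2 * (k + 2)) ^ 6 ≤ E → L * ((k : ℝ) + 1) ^ 2 ≤ √E := by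
  obtain ⟨E0, hE0⟩ := exists_nat_ge (max 1 (L ^ 6))
  refine ⟨E0, fun E hE k hk => ?_⟩
  have hE' : (E0 : ℝ) ≤ E := by exact_mod_cast hE
  have hE1 : (1 : ℝ) ≤ E := (le_max_left _ _).trans (hE0.trans hE')
  have hE2 : L ^ 6 ≤ E := (le_max_right _ _).trans (hE0.trans hE')
  have hk' : ((k : ℝ) + 1) ^ 6 ≤ E := by
    have h1 : (k + 1) ^ 6 ≤ E := (Nat.pow_le_pow_left (by omega) 6).trans hk
    have h2 : (((k + 1) ^ 6 : ℕ) : ℝ) ≤ E := by exact_mod_cast h1
    push_cast at h2
    exact h2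
  set a : ℝ := ((k : ℝ) + 1) ^ 2 with ha
  have ha1 : 1 ≤ a := by rw [ha]; nlinarith only [Nat.cast_nonneg (α := ℝ) k]
  have ha3 : a ^ 3 ≤ E := by
    rw [ha, ← pow_mul]
    exact hk'
  have hs : √(E : ℝ) ^ 2 = E := Real.sq_sqrt (by linarith)
  have hs0 : 0 ≤ √(E : ℝ) := Real.sqrt_nonneg _
  by_contra hcon
  push Not at hcon
  have h1 : (E : ℝ) < (L * a) ^ 2 := by
    rw [← hs]
    exact pow_lt_pow_left₀ hcon hs0 (by norm_num)
  have h2 : a ^ 3 < L ^ 2 * a ^ 2 := by nlinarith only [hk', h1]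
  have h3 : a < L ^ 2 := by
    have h4 : 0 < a ^ 2 := by positivity
    have h5 : a ^ 2 * a < a ^ 2 * L ^ 2 := by nlinarith only [hk', h1]
    exact lt_of_mul_lt_mul_left h5 h4.le
  have h4 : (L * a) ^ 2 < L ^ 6 := by
    have h5 : a ^ 2 < (L ^ 2) ^ 2 := pow_lt_pow_left₀ h3 (by linarith only [ha1]) (by norm_num)
    have h6 : 0 < L ^ 2 := by positivity
    calc (L * a) ^ 2 = L ^ 2 * a ^ 2 := by ring
      _ < L ^ 2 * (L ^ 2) ^ 2 := by gcongr
      _ = L ^ 6 := by ring
  linarith only [hE2, h1, h4]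

/-- Packet `LB`. -/
theorem lb (h1 : StmtWT) (h2 : StmtER) (h3 : StmtCO) (h4 : StmtCM) (h5 : StmtVP) : StmtLB := by
  intro η hη
  obtain ⟨C, hC, hCB⟩ := Pool.Agent.Helper31.RR.cb
  obtain ⟨c2, hc2, E2, hER⟩ := h2 C hC
  obtain ⟨C3, hC3, E3, hCO⟩ := h3
  set η' : ℝ := min η 1 / 2 with hη'
  have hη'0 : 0 < η' := by rw [hη']; have := lt_min hη one_pos; linarith
  have hη'1 : η' ≤ 1 / 2 := by rw [hη']; have := min_le_right η 1; linarith
  have hη'2 : η' ≤ η := by rw [hη']; have := min_le_left η 1; linarith only [hη, this]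
  obtain ⟨E4, hCM⟩ := h4 η' hη'0
  obtain ⟨c5, hc5, E5, hVP⟩ := h5
  obtain ⟨c6, hc6, hom⟩ := Pool.Agent.Helper74.PP.om_lower
  obtain ⟨E6, hex⟩ := exp_small c2 c6 (η' / 2) hc2 hc6 (by positivity)
  obtain ⟨E7, hbad⟩ := bad_small (64 * C3 / η' ^ 3) (by positivity)
  refine ⟨max (max (max E2 E3) (max E4 E5)) (max (max E6 E7) 64),
    fun E z x y hE hS b hb P hP hPA j hj hjP => ?_⟩
  have hE2 : E2 ≤ E := by
    exact ((le_max_left _ _).trans (le_max_left _ _)).trans ((le_max_left _ _).trans hE)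
  have hE3 : E3 ≤ E := by
    exact ((le_max_right _ _).trans (le_max_left _ _)).trans ((le_max_left _ _).trans hE)
  have hE4 : E4 ≤ E := by
    exact ((le_max_left _ _).trans (le_max_right _ _)).trans ((le_max_left _ _).trans hE)
  have hE5 : E5 ≤ E := by
    exact ((le_max_right _ _).trans (le_max_right _ _)).trans ((le_max_left _ _).trans hE)
  have hE6 : E6 ≤ E := by
    exact ((le_max_left _ _).trans (le_max_left _ _)).trans ((le_max_right _ _).trans hE)
  have hE7 : E7 ≤ E := by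
    exact ((le_max_right _ _).trans (le_max_left _ _)).trans ((le_max_right _ _).trans hE)
  have hE8 : 64 ≤ E := (le_max_right _ _).trans ((le_max_right _ _).trans hE)
  have hEr : (64 : ℝ) ≤ E := by exact_mod_cast hE8
  obtain ⟨hm1, hqm, hM2, hK6, _, hVV⟩ := hVP E hE5
  -- `z`
  have hzE : Real.exp E ≤ z := hS.1
  have hzE' : (E : ℝ) + 1 ≤ z := (Real.add_one_le_exp _).trans hzE
  have hzE2 : E + 1 ≤ z := by exact_mod_cast hzE'
  have hz2 : 2 ≤ z := by omega
  have hV1 := (hVV z hz2).1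
  -- `y`
  have hy2 := Pool.Agent.Helper49.GM.Sr_y hS
  have hyE : E ≤ y := by
    have : (E : ℝ) ≤ y := by nlinarith only [hη'0, hη'1, hEr, hy2]
    exact_mod_cast this
  have hPy : P.card ≤ y := by
    refine (Finset.card_le_card hP).trans ?_
    simp
  set m := mE E with hm
  set q := qE E with hq
  have hq1 : 1 ≤ q := by
    rw [hq]
    unfold qE
    exact Nat.one_le_two_pow
  have hqm' : q * m ≤ E / 16 := by
    refine le_trans ?_ hqm
    rw [pow_two, mul_assoc]
    calc q * m = 1 * (q * m) := (one_mul _).symm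
      _ ≤ q * (q * m) := Nat.mul_le_mul_right _ hq1
  -- parameters of the error term
  set K : ℕ := 2 * (E / 16 / m + 2) with hK
  have hK3 : K ^ 3 ≤ E := by
    have h7 : 1 ≤ K := by
      rw [hK]
      exact Nat.succ_le_of_lt (by positivity)
    exact (Nat.pow_le_pow_right h7 (by norm_num)).trans hK6
  have hKm : 2 * (E / 16 / m) ≤ K := by
    rw [hK]
    exact Nat.mul_le_mul_left 2 (Nat.le_add_right _ _)
  have hmom := moment h1 hC E z x y b j m q K P hz2 hm1 hqm' hKm
    (fun d hd => (hCB m q (E / 16) z hm1 hz2 (by omega) hV1 d hd).1)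
  have her := hER E z x y hE2 hS b hb K hK3 P hP j hj hjP
  have hmain := hmom.trans her
  -- `x`
  have hx2 : 2 ≤ x := by
    have h7 := hS.2.1
    have h8 : z ^ 1 ≤ z ^ E := Nat.pow_le_pow_right (by omega) (by omega)
    rw [pow_one] at h8
    omega
  have hlogz : 0 < Real.log z := Real.log_pos (by exact_mod_cast hz2)
  have hlogx : Real.log z ≤ Real.log x := by
    have h7 := Pool.Agent.Helper49.GM.Sr_x hS
    nlinarith only [h7, hη'0, hlogz, hη'1, hEr]
  -- the size of `om`
  set o : ℝ := om y z with ho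
  have homl : 1 / (c6 * Real.log z) ≤ o := (hom y z hz2).1
  have ho0 : 0 < o := lt_of_lt_of_le (by positivity) homl
  set X : ℝ := XI (x / 32) x (QQ x) with hX
  have hX0 : 0 ≤ X := XI_nonneg _ _ _
  set A : ℝ := X * (o / E) with hA
  have hA0 : 0 ≤ A := by rw [hA]; positivity
  have hexp : Real.exp (-(c2 * E)) * X ≤ η' / 2 * A := by
    have h7 : Real.log (Real.log x) ^ 3 ≤ E := hS.2.2.2.2.2
    have h8 := hex E hE6 (Real.log (Real.log x)) h7
    rw [Real.exp_log (by linarith only [hlogz, hlogx])] at h8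
    have h9 : Real.exp (-(c2 * E)) ≤ η' / 2 * (o / E) := by
      have h10 : c6 * E * Real.log z * Real.exp (-(c2 * E)) ≤ η' / 2 := by
        refine le_trans ?_ h8
        gcongr
      have h11 : Real.exp (-(c2 * E)) ≤ η' / 2 / (c6 * E * Real.log z) := by
        rw [le_div_iff₀ (by positivity)]
        linarith only [h10]
      refine h11.trans ?_
      have h12 : η' / 2 / (c6 * E * Real.log z) = η' / 2 * (1 / (c6 * Real.log z) / E) := by
        field_simp
      rw [h12]
      gcongr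
    calc Real.exp (-(c2 * E)) * X ≤ η' / 2 * (o / E) * X := mul_le_mul_of_nonneg_right h9 hX0
      _ = η' / 2 * A := by rw [hA]; ring
  -- the mean square
  have hDt : Dt E z y P = DB m q (E / 16) z y P := rfl
  have hD1 : 1 ≤ Dt E z y P := one_le_DB m q (E / 16) z y hPy
  set D := Dt E z y P with hD
  set N := NI (x / 32) x (QQ x) b with hN
  set μ : ℝ := (P.card : ℝ) * o with hμ
  have hμ0 : 0 ≤ μ := by positivity
  set k0 : ℝ := 4 * ((E / 16 / m : ℕ) + 1) with hk0
  have hk0p : 0 < k0 := by positivity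
  -- the good integers
  set good : ℕ → Prop := fun n => μ ≤ √E ∨ μ * (1 - η' / k0) ≤ (Sn y z P n).card with hgood
  have hgoodD : ∀ n, good n → (1 - η') * D ≤ DS' m q (E / 16) z P (Sn y z P n) := by
    intro n hn
    exact hCM E z y hE4 hz2 hyE P (Sn y z P n) (Finset.filter_subset _ _) hn
  -- the bad integers
  have hbadsum : ∑ n ∈ N.filter (fun n => ¬ good n), pw x (n + j) ≤ η' / 2 * A := by
    rcases le_or_gt μ (√E) with hsm | hlg
    · have h7 : N.filter (fun n => ¬ good n) = ∅ := by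
        refine Finset.filter_eq_empty_iff.2 fun n _ h => h (Or.inl hsm)
      rw [h7, Finset.sum_empty]
      positivity
    · have hsq1 : 1 ≤ √(E : ℝ) := by
        rw [Real.one_le_sqrt]
        linarith only [hη'0, hη'1, hEr]
      have hμ1 : 1 ≤ μ := by linarith only [hlg, hsq1]
      have hco := hCO E z x y hE3 hS b hb P hP hPA j hj hjP
      have h8 : ∑ n ∈ N.filter (fun n => ¬ good n), pw x (n + j) * (μ * (η' / k0)) ^ 2 ≤
          ∑ n ∈ N.filter (fun n => (n + j).Prime),
            (((P.filter (fun h => Rg y z (n + h))).card : ℝ) - P.card * o) ^ 2 := by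
        have h9 : ∀ n ∈ N.filter (fun n => ¬ good n), ¬ (n ∈ N.filter (fun n => (n + j).Prime)) →
            pw x (n + j) * (μ * (η' / k0)) ^ 2 = 0 := by
          intro n hn hn'
          have h10 : ¬ (n + j).Prime := fun h => hn' (Finset.mem_filter.2
            ⟨(Finset.mem_filter.1 hn).1, h⟩)
          unfold pw
          rw [if_neg h10, zero_mul]
        rw [← Finset.sum_filter_add_sum_filter_not (N.filter (fun n => ¬ good n))
          (fun n => n ∈ N.filter (fun n => (n + j).Prime))]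
        rw [Finset.sum_eq_zero (s := (N.filter (fun n => ¬ good n)).filter
          (fun n => ¬ (n ∈ N.filter (fun n => (n + j).Prime))))
          (fun n hn => h9 n (Finset.mem_filter.1 hn).1 (Finset.mem_filter.1 hn).2), add_zero]
        refine le_trans (Finset.sum_le_sum (g := fun n =>
          (((P.filter (fun h => Rg y z (n + h))).card : ℝ) - P.card * o) ^ 2) fun n hn => ?_)
          (Finset.sum_le_sum_of_subset_of_nonneg ?_ fun n _ _ => sq_nonneg _)
        · have hn1 := (Finset.mem_filter.1 (Finset.mem_filter.1 hn).1).2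
          have hng : ¬ (μ ≤ √E ∨ μ * (1 - η' / k0) ≤ (Sn y z P n).card) := hn1
          push Not at hng
          have h11 : ((Sn y z P n).card : ℝ) < μ * (1 - η' / k0) := hng.2
          have h12 : μ * (η' / k0) ≤ μ - ((Sn y z P n).card : ℝ) := by
            have : μ * (1 - η' / k0) = μ - μ * (η' / k0) := by ring
            linarith only [hng]
          have h13 : 0 ≤ μ * (η' / k0) := by positivity
          have h14 : (μ * (η' / k0)) ^ 2 ≤ (μ - ((Sn y z P n).card : ℝ)) ^ 2 :=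
            pow_le_pow_left₀ h13 h12 2
          have h15 := pw_le_one x (n + j) hx2
          have h16 := pw_nonneg x (n + j)
          calc pw x (n + j) * (μ * (η' / k0)) ^ 2 ≤ 1 * (μ * (η' / k0)) ^ 2 :=
                mul_le_mul_of_nonneg_right h15 (sq_nonneg _)
            _ ≤ (μ - ((Sn y z P n).card : ℝ)) ^ 2 := by rw [one_mul]; exact h14
            _ = (((P.filter (fun h => Rg y z (n + h))).card : ℝ) - P.card * o) ^ 2 := by
                rw [hμ]
                unfold Sn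
                ring
        · intro n hn
          exact (Finset.mem_filter.1 hn).2
      rw [← Finset.sum_mul] at h8
      have h17 : (∑ n ∈ N.filter (fun n => ¬ good n), pw x (n + j)) * (μ * (η' / k0)) ^ 2 ≤
          C3 * A * (μ + 1) := h8.trans hco
      -- arithmetic
      have hbd := hbad E hE7 (E / 16 / m) hK6
      have h18 : 64 * C3 * (((E / 16 / m : ℕ) : ℝ) + 1) ^ 2 ≤ η' ^ 3 * μ := by
        have h19 : 64 * C3 / η' ^ 3 * (((E / 16 / m : ℕ) : ℝ) + 1) ^ 2 ≤ μ := hbd.trans hlg.le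
        have h20 : 64 * C3 * (((E / 16 / m : ℕ) : ℝ) + 1) ^ 2 =
            η' ^ 3 * (64 * C3 / η' ^ 3 * (((E / 16 / m : ℕ) : ℝ) + 1) ^ 2) := by
          field_simp
        rw [h20]
        exact mul_le_mul_of_nonneg_left h19 (by positivity)
      have hk2 : k0 ^ 2 = 16 * (((E / 16 / m : ℕ) : ℝ) + 1) ^ 2 := by rw [hk0]; ring
      have h21 : 4 * C3 * k0 ^ 2 ≤ η' ^ 3 * μ := by rw [hk2]; linarith only [h18]
      have h22 : C3 * A * (μ + 1) ≤ η' / 2 * A * (μ * (η' / k0)) ^ 2 := by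
        have h23 : C3 * (μ + 1) ≤ η' / 2 * (μ * (η' / k0)) ^ 2 := by
          have h24 : η' / 2 * (μ * (η' / k0)) ^ 2 = η' ^ 3 * μ * μ / (2 * k0 ^ 2) := by
            field_simp
          rw [h24, le_div_iff₀ (by positivity)]
          have h25 : 4 * C3 * k0 ^ 2 * μ ≤ η' ^ 3 * μ * μ := mul_le_mul_of_nonneg_right h21 hμ0
          have h26 : C3 * (μ + 1) * (2 * k0 ^ 2) ≤ 4 * C3 * k0 ^ 2 * μ := by
            have h27 : 0 ≤ C3 * k0 ^ 2 := by positivity
            nlinarith only [hη'0, hη'1, hlg, h27, hsq1]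
          linarith only [h25, h26]
        calc C3 * A * (μ + 1) = A * (C3 * (μ + 1)) := by ring
          _ ≤ A * (η' / 2 * (μ * (η' / k0)) ^ 2) := mul_le_mul_of_nonneg_left h23 hA0
          _ = η' / 2 * A * (μ * (η' / k0)) ^ 2 := by ring
      have h28 : 0 < (μ * (η' / k0)) ^ 2 := by positivity
      exact le_of_mul_le_mul_right (h17.trans h22) h28
  -- assembly
  have hlow : (1 - η') * D * (∑ n ∈ N, pw x (n + j) - η' / 2 * A) ≤
      ∑ n ∈ N, pw x (n + j) * DS' m q (E / 16) z P (Sn y z P n) := by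
    have h7 : ∑ n ∈ N.filter good, pw x (n + j) * ((1 - η') * D) ≤
        ∑ n ∈ N, pw x (n + j) * DS' m q (E / 16) z P (Sn y z P n) := by
      refine le_trans (Finset.sum_le_sum (g := fun n =>
        pw x (n + j) * DS' m q (E / 16) z P (Sn y z P n)) fun n hn => ?_)
        (Finset.sum_le_sum_of_subset_of_nonneg (Finset.filter_subset _ _) fun n _ _ =>
          mul_nonneg (pw_nonneg _ _) (DS'_nonneg _ _ _ _ _ _))
      exact mul_le_mul_of_nonneg_left (hgoodD n (Finset.mem_filter.1 hn).2) (pw_nonneg _ _)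
    rw [← Finset.sum_mul] at h7
    have h8 := Finset.sum_filter_add_sum_filter_not N good (fun n => pw x (n + j))
    have h9 : ∑ n ∈ N, pw x (n + j) - η' / 2 * A ≤ ∑ n ∈ N.filter good, pw x (n + j) := by
      linarith only [hbadsum, h8]
    have h10 : 0 ≤ (1 - η') * D := mul_nonneg (by linarith only [hη'0, hη'1]) (by linarith only [hη'0, hη'1, hD1])
    calc (1 - η') * D * (∑ n ∈ N, pw x (n + j) - η' / 2 * A) ≤
          (1 - η') * D * ∑ n ∈ N.filter good, pw x (n + j) := mul_le_mul_of_nonneg_left h9 h10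
      _ = (∑ n ∈ N.filter good, pw x (n + j)) * ((1 - η') * D) := by ring
      _ ≤ _ := h7
  have hW : ∑ n ∈ N, pw x (n + j) * Wt E z y P n ^ 2 =
      ∑ n ∈ N, pw x (n + j) * WB m q (E / 16) z y P n ^ 2 := rfl
  rw [hW]
  have h7 := (abs_le.1 hmain).1
  have hS0 : 0 ≤ ∑ n ∈ N, pw x (n + j) := Finset.sum_nonneg fun n _ => pw_nonneg _ _
  set s0 := ∑ n ∈ N, pw x (n + j) with hs0
  set W := ∑ n ∈ N, pw x (n + j) * WB m q (E / 16) z y P n ^ 2 with hWd
  set V := ∑ n ∈ N, pw x (n + j) * DS' m q (E / 16) z P (Sn y z P n) with hVd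
  have h8 : (1 - η') * D * (s0 - η' / 2 * A) - η' / 2 * A ≤ W := by linarith only [hexp, hlow, h7]
  refine le_trans ?_ h8
  have h9 : η' / 2 * A ≤ D * (η' / 2 * A) := le_mul_of_one_le_left (by positivity) hD1
  have h10 : D * ((1 - η) * s0 - η * A) ≤ D * ((1 - η') * (s0 - η' / 2 * A) - η' / 2 * A) := by
    refine mul_le_mul_of_nonneg_left ?_ (by linarith only [hη'0, hη'1, hD1])
    have e1 : (1 - η) * s0 ≤ (1 - η') * s0 := mul_le_mul_of_nonneg_right (by linarith only [hη'2]) hS0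
    have e2 : η' * A ≤ η * A := mul_le_mul_of_nonneg_right hη'2 hA0
    have e3 : 0 ≤ η' * (η' / 2 * A) := by positivity
    nlinarith only [e1, e2, e3]
  calc D * ((1 - η) * s0 - η * A) ≤ D * ((1 - η') * (s0 - η' / 2 * A) - η' / 2 * A) := h10
    _ = (1 - η') * D * (s0 - η' / 2 * A) - D * (η' / 2 * A) := by ring
    _ ≤ (1 - η') * D * (s0 - η' / 2 * A) - η' / 2 * A := by linarith only [h9]

end Pool.Agent.Helper42.CG
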